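import Pool.Agent.H911R2.GaussFinal2

/-!
MP_3699be_gt, Q1 (negated form): for one huge and at least seven tiny regions perimeter-minimizing
partitions of the Gauss plane exist, and none of them has as interface a finite union of straight
segments and half-lines meeting in threes at angles of 120 degrees.
-/

set_option autoImplicit false

namespace Pool.Agent.Results.MP_3699be_gt.NotStraight

open Pool.Agent.H911R2.Gauss

/-- For every `m ≥ 7` and all positive weights `w` with sum `1` there is `0 < t₀ ≤ 1` such that for
`0 < t < t₀` there is a perimeter-minimizing partition of the Gauss plane into `m + 1` regions of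
areas `1 - t, t w 0, …, t w (m-1)`, and every such partition has finite perimeter and an interface
that is not a finite straight 120-degree network. -/
theorem result : ∀ m : ℕ, 7 ≤ m → ∀ w : Fin m → ℝ, (∀ i, 0 < w i) → ∑ i, w i = 1 →
    ∃ t₀ : ℝ, 0 < t₀ ∧ t₀ ≤ 1 ∧ ∀ t : ℝ, 0 < t → t < t₀ →
      (∃ A : Fin (m + 1) → Set Plane, IsMinimizing (Fin.cons (1 - t) fun i => t * w i) A) ∧
      ∀ A : Fin (m + 1) → Set Plane, IsMinimizing (Fin.cons (1 - t) fun i => t * w i) A →
        totalPerim A ≠ ⊤ ∧
        ∀ (k : ℕ) (e : Fin k → Edge), IsNetwork e → interface A ≠ ⋃ i, (e i).carrier :=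
  fun _ hm w hw hsum => minimizers_not_straight hm w hw hsum

end Pool.Agent.Results.MP_3699be_gt.NotStraight
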